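import Pool.Agent.H40.EGD.Targets

/-!
# Step D: the set of directions is invariant under the reflections
-/

namespace Pool.Agent.H4.EGD

open MeasureTheory Set Metric Filter Topology Pool.Agent.H93.BL Pool.Agent.H40.EGD

theorem REF (hM1 : T_M1) (hM6 : T_M6) (hIOS : T_IOS) (hDIR : T_DIR) (hHLF : T_HLF) : T_REF := by
  intro ι _ P X W hW i
  obtain ⟨N, hN⟩ : ∃ N : ι → Set (ℝ × ℝ), N = fun j =>
      {z | ¬ (Io P X (j, z) ↔ P.dir (j, z) ∈ W)} := ⟨_, rfl⟩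
  have hN0 : ∀ j, P.liouville j (N j) = 0 := by
    intro j
    rw [hN]
    exact ae_iff.1 (hW j)
  have h1 : ∀ᵐ z ∂(P.liouville i), ¬ ∃ z', P.Step z' (i, z) ∧ z'.2 ∈ N z'.1 := by
    rw [ae_iff]
    have h2 := (hM6 ι P N hN0).2 i
    simp only [not_not]
    exact h2
  have h3 : ∀ᵐ z ∂(P.liouville i), P.dir (i, z) ∈ {v | v ∈ W ↔ P.refl i v ∈ W} := by
    filter_upwards [h1, (hM1 ι P i).2, hW i] with z hz1 hz2 hz3
    obtain ⟨z', hz'⟩ := hz2
    have h4 : Io P X z' ↔ P.dir z' ∈ W := by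
      by_contra h5
      exact hz1 ⟨z', hz', by rw [hN]; exact h5⟩
    have h6 : P.dir (i, z) = P.refl i (P.dir z') := by
      obtain ⟨-, -, t, -, -, -, h7⟩ := hz'
      exact h7
    have h8 : P.refl i (P.dir (i, z)) = P.dir z' := by
      rw [h6, P.refl_refl]
    change P.dir (i, z) ∈ W ↔ P.refl i (P.dir (i, z)) ∈ W
    rw [h8, ← hz3, ← h4]
    exact (hIOS ι P X z' (i, z) hz').symm
  exact hHLF (P.u i) W (P.norm_u i) ((hDIR ι P i _).1.1 h3)

end Pool.Agent.H4.EGD
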